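import Pool.Agent.Lib.MP_4d8715_gt.KR.G.Ult

/-! # Names as measurable functions (module G-MEAS) -/

universe u

namespace Pool.Agent.Lib.MP_4d8715_gt.KR

variable {B : Type u} [CompleteBooleanAlgebra B]

instance : MeasurableSpace (Ult B) where
  MeasurableSet' s := ∃ b : B, ∀ᶠ U in genF B, (U b ↔ U ∈ s)
  measurableSet_empty := ⟨⊥, Filter.Eventually.of_forall fun U =>
    ⟨fun h => absurd h U.bot, fun h => h.elim⟩⟩
  measurableSet_compl := by
    rintro s ⟨b, hb⟩
    refine ⟨bᶜ, ?_⟩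
    filter_upwards [hb] with U hU
    rw [U.compl, hU, Set.mem_compl_iff]
  measurableSet_iUnion := by
    intro f hf
    choose b hb using hf
    refine ⟨⨆ i, b i, ?_⟩
    filter_upwards [ev_iSup b, eventually_countable_forall.mpr hb] with U hU h
    rw [hU, Set.mem_iUnion]
    exact exists_congr h

theorem measurableSet_ult_iff {s : Set (Ult B)} :
    MeasurableSet s ↔ ∃ b : B, ∀ᶠ U in genF B, (U b ↔ U ∈ s) := Iff.rfl

theorem measurableSet_val (b : B) : MeasurableSet {U : Ult B | U b} :=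
  ⟨b, Filter.Eventually.of_forall fun _ => Iff.rfl⟩

/-- a set which is eventually equal to a measurable set is measurable -/
theorem measurableSet_congr_ev {s t : Set (Ult B)} (hs : MeasurableSet s)
    (h : ∀ᶠ U in genF B, (U ∈ s ↔ U ∈ t)) : MeasurableSet t := by
  obtain ⟨b, hb⟩ := hs
  refine ⟨b, ?_⟩
  filter_upwards [hb, h] with U h1 h2
  exact h1.trans h2

open Classical in
/-- the element of `B` given by a measurable set -/
noncomputable def nm (s : Set (Ult B)) : B := if h : MeasurableSet s then h.choose else ⊥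

theorem nm_spec {s : Set (Ult B)} (hs : MeasurableSet s) :
    ∀ᶠ U in genF B, (U (nm s) ↔ U ∈ s) := by
  unfold nm
  rw [dif_pos hs]
  exact hs.choose_spec

theorem nm_le_iff {s t : Set (Ult B)} (hs : MeasurableSet s) (ht : MeasurableSet t) :
    nm s ≤ nm t ↔ ∀ᶠ U in genF B, U ∈ s → U ∈ t := by
  rw [le_iff_ev]
  constructor
  · intro h
    filter_upwards [h, nm_spec hs, nm_spec ht] with U h0 h1 h2 h3
    exact h2.mp (h0 (h1.mpr h3))
  · intro h
    filter_upwards [h, nm_spec hs, nm_spec ht] with U h0 h1 h2 h3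
    exact h2.mpr (h0 (h1.mp h3))

/-- the least natural number with a property -/
theorem meas_least {Ω : Type*} [MeasurableSpace Ω] (s : ℕ → Set Ω)
    (hs : ∀ i, MeasurableSet (s i)) : ∃ f : Ω → ℕ, Measurable f ∧
      ∀ ω, (∃ i, ω ∈ s i) → ω ∈ s (f ω) ∧ ∀ i < f ω, ω ∉ s i := by
  classical
  have hp : ∀ ω, ∃ k, ω ∈ s k ∨ ∀ i, ω ∉ s i := by
    intro ω
    by_cases h : ∃ i, ω ∈ s i
    · exact h.imp fun _ hi => Or.inl hi
    · push Not at h
      exact ⟨0, Or.inr h⟩
  refine ⟨fun ω => Nat.find (hp ω), measurable_find hp fun k => ?_, fun ω hω => ?_⟩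
  · have h1 : {ω | ω ∈ s k ∨ ∀ i, ω ∉ s i} = s k ∪ ⋂ i, (s i)ᶜ := by
      ext ω
      simp
    rw [h1]
    exact (hs k).union (MeasurableSet.iInter fun i => (hs i).compl)
  · obtain ⟨i₀, hi₀⟩ := hω
    refine ⟨(Nat.find_spec (hp ω)).resolve_right fun h => h i₀ hi₀, fun i hi h => ?_⟩
    exact Nat.find_min (hp ω) hi (Or.inl h)

theorem meas_choice {Ω ι : Type*} [MeasurableSpace Ω] [Countable ι] [Nonempty ι]
    (s : ι → Set Ω) (hs : ∀ i, MeasurableSet (s i)) :
    ∃ f : Ω → ι, (∀ i, MeasurableSet (f ⁻¹' {i})) ∧ ∀ ω, (∃ i, ω ∈ s i) → ω ∈ s (f ω) := by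
  obtain ⟨e, he⟩ := exists_surjective_nat ι
  obtain ⟨g, hg, hgs⟩ := meas_least (fun n => s (e n)) fun n => hs (e n)
  refine ⟨fun ω => e (g ω), fun i => ?_, fun ω hω => ?_⟩
  · exact hg (MeasurableSet.of_discrete (s := e ⁻¹' {i}))
  · obtain ⟨i, hi⟩ := hω
    obtain ⟨n, rfl⟩ := he i
    exact (hgs ω ⟨n, hi⟩).1

/-- functions on the ultrafilters with values in a countable type which are measurable -/
def MeasC {ι : Type*} (f : Ult B → ι) : Prop := ∀ i, MeasurableSet (f ⁻¹' {i})

theorem MeasC.preimage {ι : Type*} [Countable ι] {f : Ult B → ι} (hf : MeasC f) (s : Set ι) :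
    MeasurableSet (f ⁻¹' s) := by
  have h1 : f ⁻¹' s = ⋃ i ∈ s, f ⁻¹' {i} := by
    ext U
    simp
  rw [h1]
  exact MeasurableSet.biUnion s.to_countable fun i _ => hf i

theorem MeasC.comp {ι κ : Type*} [Countable ι] {f : Ult B → ι} (hf : MeasC f) (g : ι → κ) :
    MeasC (fun U => g (f U)) := fun k => hf.preimage (g ⁻¹' {k})

theorem MeasC.prod {ι κ : Type*} {f : Ult B → ι} {g : Ult B → κ} (hf : MeasC f) (hg : MeasC g) :
    MeasC (fun U => (f U, g U)) := by
  rintro ⟨i, k⟩
  have h1 : (fun U => (f U, g U)) ⁻¹' {(i, k)} = f ⁻¹' {i} ∩ g ⁻¹' {k} := by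
    ext U
    simp
  rw [h1]
  exact (hf i).inter (hg k)

theorem MeasC.const {ι : Type*} (i : ι) : MeasC (fun _ : Ult B => i) := fun j =>
  MeasurableSet.const (i = j)

theorem MeasC.measurable {ι : Type*} [Countable ι] [MeasurableSpace ι] {f : Ult B → ι}
    (hf : MeasC f) : Measurable f := fun s _ => hf.preimage s

theorem Measurable.measC {ι : Type*} [MeasurableSpace ι] [MeasurableSingletonClass ι]
    {f : Ult B → ι} (hf : Measurable f) : MeasC f := fun i => hf (measurableSet_singleton i)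

/-- diagonal substitution: a function depending measurably on the ultrafilter, evaluated at an
index depending measurably on the ultrafilter -/
theorem MeasC.bind {ι κ : Type*} [Countable ι] {f : Ult B → ι} {g : ι → Ult B → κ}
    (hf : MeasC f) (hg : ∀ i, MeasC (g i)) : MeasC (fun U => g (f U) U) := by
  intro k
  have h1 : (fun U => g (f U) U) ⁻¹' {k} = ⋃ i, f ⁻¹' {i} ∩ g i ⁻¹' {k} := by
    ext U
    simp
  rw [h1]
  exact MeasurableSet.iUnion fun i => (hf i).inter (hg i k)

/-- the name of a measurable function -/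
noncomputable def nmF {ι : Type*} (f : Ult B → ι) (i : ι) : B := nm (f ⁻¹' {i})

theorem nmF_spec {ι : Type*} {f : Ult B → ι} (hf : MeasC f) (i : ι) :
    ∀ᶠ U in genF B, (U (nmF f i) ↔ f U = i) := nm_spec (hf i)

theorem nmF_iSup {ι : Type*} [Countable ι] {f : Ult B → ι} (hf : MeasC f) :
    ⨆ i, nmF f i = ⊤ := by
  rw [eq_top_iff_ev]
  filter_upwards [ev_iSup (nmF f), eventually_countable_forall.mpr (nmF_spec hf)]
    with U h1 h2
  exact h1.mpr ⟨f U, (h2 (f U)).mpr rfl⟩

theorem nmF_disj {ι : Type*} {f : Ult B → ι} (hf : MeasC f) {i j : ι} (hij : i ≠ j) :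
    nmF f i ⊓ nmF f j = ⊥ := by
  rw [eq_bot_iff, le_iff_ev]
  filter_upwards [nmF_spec hf i, nmF_spec hf j] with U h1 h2 h3
  rw [U.inf] at h3
  exact absurd ((h1.mp h3.1).symm.trans (h2.mp h3.2)) hij

theorem isFn_nmF {f : Ult B → ℕ → ℕ} (hf : ∀ k, MeasC (fun U => f U k)) :
    IsFn (fun k v => nmF (fun U => f U k) v) :=
  ⟨fun k => nmF_iSup (hf k), fun k _ _ hv => nmF_disj (hf k) hv⟩

/-- the same below an element `p` -/
theorem exists_measC_of_le {ι : Type*} [Countable ι] [Nonempty ι] (p : B) (a : ι → B)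
    (h : p ≤ ⨆ i, a i) : ∃ f : Ult B → ι, MeasC f ∧ ∀ᶠ U in genF B, U p → U (a (f U)) := by
  obtain ⟨f, hf, hfa⟩ := meas_choice (fun i => {U : Ult B | U (a i)}) fun i =>
    measurableSet_val (a i)
  refine ⟨f, hf, ?_⟩
  filter_upwards [ev_iSup a] with U hU hp
  exact hfa U (hU.mp (U.mono h hp))

/-- the function given by a family of elements of `B` with supremum `⊤` -/
theorem exists_measC {ι : Type*} [Countable ι] (a : ι → B) (h : ⨆ i, a i = ⊤) :
    ∃ f : Ult B → ι, MeasC f ∧ ∀ᶠ U in genF B, U (a (f U)) := by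
  rcases isEmpty_or_nonempty ι with hι | hι
  · have hbt : (⊥ : B) = ⊤ := by rw [← h, iSup_of_empty]
    have hU : ∀ U : Ult B, False := fun U => U.bot (by rw [hbt]; exact U.top)
    exact ⟨fun U => (hU U).elim, fun i => hι.elim i,
      Filter.Eventually.of_forall fun U => (hU U).elim⟩
  · obtain ⟨f, hf, hfa⟩ := exists_measC_of_le (⊤ : B) a h.ge
    refine ⟨f, hf, ?_⟩
    filter_upwards [hfa] with U hU
    exact hU U.top

/-- reals: measurability of a real function from its cuts -/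
theorem measurable_real {f : Ult B → ℝ} (h : ∀ q : ℚ, MeasurableSet {U | (q : ℝ) < f U}) :
    Measurable f := by
  refine measurable_of_Ioi fun x => ?_
  have h1 : f ⁻¹' Set.Ioi x = ⋃ q : ℚ, ⋃ (_ : x < q), {U | (q : ℝ) < f U} := by
    ext U
    simp only [Set.mem_preimage, Set.mem_Ioi, Set.mem_iUnion, Set.mem_ofPred_eq, exists_prop]
    constructor
    · intro hx
      obtain ⟨q, h2, h3⟩ := exists_rat_btwn hx
      exact ⟨q, h2, h3⟩
    · rintro ⟨q, h2, h3⟩
      exact h2.trans h3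
  rw [h1]
  exact MeasurableSet.iUnion fun q => MeasurableSet.iUnion fun _ => h q

end Pool.Agent.Lib.MP_4d8715_gt.KR
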