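import Pool.Agent.Lib.MP_4d8715_gt.KR.G.Meas
import Pool.Agent.Lib.MP_4d8715_gt.KR.Z.Full
import Pool.Agent.Lib.MP_4d8715_gt.KR.Z.Quant

/-! # Mixing of Boolean-valued sets along measurable functions (module G-MIX) -/

universe u

namespace Pool.Agent.Lib.MP_4d8715_gt.KR

namespace BSet

variable {B : Type u} [CompleteBooleanAlgebra B]

theorem mix_meas {ι : Type} [Countable ι] {f : Ult B → ι} (hf : MeasC f) (x : ι → BSet B) :
    ∃ y : BSet B, ∀ᶠ U in genF B, U (beq y (x (f U))) := by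
  obtain ⟨y, hy⟩ := exists_mix (ι := ULift.{u} ι) (fun i => nmF f i.down) (fun i => x i.down)
    (fun i j => by
      by_cases hij : i.down = j.down
      · simp only [hij]
        rw [beq_refl]
        exact le_top
      · simp only [nmF_disj hf hij]
        exact bot_le)
  refine ⟨y, ?_⟩
  filter_upwards [eventually_countable_forall.mpr (nmF_spec hf)] with U hU
  exact U.mono (hy ⟨f U⟩) ((hU (f U)).mpr rfl)

theorem exists_max_le (ψ : BSet B → B) (hψ : Ext ψ) (p : B) (h : p ≤ ⨆ y, ψ y) :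
    ∃ x, p ≤ ψ x := by
  obtain ⟨x, hx⟩ := exists_max ψ hψ
  exact ⟨x, h.trans hx.ge⟩

theorem ev_beq_refl (x : BSet B) (U : Ult B) : U (beq x x) := by
  rw [beq_refl]
  exact U.top

theorem ev_beq_symm {x y : BSet B} {U : Ult B} (h : U (beq x y)) : U (beq y x) := by
  rw [beq_symm]
  exact h

theorem ev_beq_trans {x y z : BSet B} {U : Ult B} (h : U (beq x y)) (h' : U (beq y z)) :
    U (beq x z) := U.mono (beq_trans x y z) ((U.inf _ _).mpr ⟨h, h'⟩)

theorem ev_bmem_left {x x' y : BSet B} {U : Ult B} (h : U (beq x x')) (h' : U (bmem x y)) :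
    U (bmem x' y) := U.mono (bmem_congr_left x x' y) ((U.inf _ _).mpr ⟨h, h'⟩)

theorem ev_bmem_right {x y y' : BSet B} {U : Ult B} (h : U (beq y y')) (h' : U (bmem x y)) :
    U (bmem x y') := U.mono (bmem_congr_right x y y') ((U.inf _ _).mpr ⟨h, h'⟩)

end BSet

end Pool.Agent.Lib.MP_4d8715_gt.KR
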