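import Pool.Agent.Lib.MP_4d8715_gt.KR.R.Defs

/-! # Generic ultrafilters (module G-ULT)

`genF B` is the filter of the sets of ultrafilters which contain all sufficiently generic ones. Statements about
elements of `B` built with countable suprema and infima can be proved with `le_iff_ev` as if the elements were
propositions. `freq_of_ne_bot` is the Rasiowa-Sikorski lemma: `Filter.mem_countableGenerate_iff` gives countably many
sequences `f i : ℕ → B`; construct a decreasing sequence `b_i ≠ ⊥` below `b` with `b_i ≤ (⨆ n, f i n)ᶜ` or `b_i ≤ f i n` for some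
`n`, extend the filter generated by the `b_i` to an ultrafilter (`exists_ultra`-like, Zorn or prime ideals). -/

universe u

namespace Pool.Agent.Lib.MP_4d8715_gt.KR

/-- ultrafilters of the Boolean algebra `B` -/
structure Ult (B : Type u) [CompleteBooleanAlgebra B] where
  /-- the elements of the ultrafilter -/
  pr : B → Prop
  top : pr ⊤
  bot : ¬ pr ⊥
  inf : ∀ a b, pr (a ⊓ b) ↔ pr a ∧ pr b
  compl : ∀ a, pr aᶜ ↔ ¬ pr a

variable {B : Type u} [CompleteBooleanAlgebra B]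

instance : CoeFun (Ult B) (fun _ => B → Prop) := ⟨Ult.pr⟩

variable (B) in
/-- the filter of the sets which contain all sufficiently generic ultrafilters -/
def genF : Filter (Ult B) :=
  Filter.countableGenerate {s | ∃ f : ℕ → B, s = {U : Ult B | U (⨆ n, f n) → ∃ n, U (f n)}}

instance : CountableInterFilter (genF B) := by
  unfold genF; infer_instance

namespace Ult

variable (U : Ult B) {a b : B}

theorem mono (h : a ≤ b) (ha : U a) : U b := by
  have h1 : a ⊓ b = a := inf_eq_left.2 h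
  rw [← h1] at ha
  exact ((U.inf a b).1 ha).2

@[simp] theorem top' : U ⊤ := U.top

@[simp] theorem bot' : ¬ U ⊥ := U.bot

@[simp] theorem inf' : U (a ⊓ b) ↔ U a ∧ U b := U.inf a b

@[simp] theorem compl' : U aᶜ ↔ ¬ U a := U.compl a

@[simp] theorem sup' : U (a ⊔ b) ↔ U a ∨ U b := by
  have h1 : a ⊔ b = (aᶜ ⊓ bᶜ)ᶜ := by rw [compl_inf, compl_compl, compl_compl]
  rw [h1, compl', inf', compl', compl']
  tauto

@[simp] theorem himp' : U (a ⇨ b) ↔ (U a → U b) := by
  rw [himp_eq, sup', compl']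
  tauto

@[simp] theorem iffB' : U (iffB a b) ↔ (U a ↔ U b) := by
  unfold iffB
  rw [inf', himp', himp']
  tauto

@[simp] theorem iSup_prop {P : Prop} (f : P → B) : U (⨆ h, f h) ↔ ∃ h, U (f h) := by
  by_cases hP : P
  · rw [iSup_pos hP]
    exact ⟨fun h => ⟨hP, h⟩, fun ⟨_, h⟩ => h⟩
  · rw [iSup_neg hP]
    exact ⟨fun h => (U.bot h).elim, fun ⟨h, _⟩ => (hP h).elim⟩

@[simp] theorem iInf_prop {P : Prop} (f : P → B) : U (⨅ h, f h) ↔ ∀ h, U (f h) := by
  by_cases hP : P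
  · rw [iInf_pos hP]
    exact ⟨fun h _ => h, fun h => h hP⟩
  · rw [iInf_neg hP]
    exact ⟨fun _ h => (hP h).elim, fun _ => U.top⟩

end Ult

/-- a decreasing sequence of nonzero elements is contained in an ultrafilter -/
private theorem exists_ult_of_seq (c : ℕ → B) (hc : ∀ i, c i ≠ ⊥) (hd : ∀ i, c (i + 1) ≤ c i) :
    ∃ U : Ult B, ∀ i, U (c i) := by
  have hanti : Antitone c := antitone_nat_of_succ_le hd
  let F : Set B := {a | ∃ i, c i ≤ a}
  have hF : Order.IsPFilter F := by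
    refine Order.IsPFilter.of_def ⟨c 0, 0, le_rfl⟩ ?_ ?_
    · rintro a ⟨i, hi⟩ b ⟨j, hj⟩
      exact ⟨c (max i j), ⟨_, le_rfl⟩, (hanti (le_max_left i j)).trans hi,
        (hanti (le_max_right i j)).trans hj⟩
    · rintro a b hab ⟨i, hi⟩
      exact ⟨i, hi.trans hab⟩
  have hdisj : Disjoint ((hF.toPFilter : Order.PFilter B) : Set B)
      ((Order.Ideal.principal (⊥ : B) : Order.Ideal B) : Set B) := by
    rw [Set.disjoint_left]
    rintro a ⟨i, hi⟩ ha
    have h1 : a ≤ ⊥ := ha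
    exact hc i (le_bot_iff.1 (hi.trans h1))
  obtain ⟨J, hJ, _, hFJ⟩ := DistribLattice.prime_ideal_of_disjoint_filter_ideal hdisj
  have hFJ' : ∀ i, c i ∉ J := fun i hi =>
    Set.disjoint_left.1 hFJ (show c i ∈ ((hF.toPFilter : Order.PFilter B) : Set B) from
      ⟨i, le_rfl⟩) hi
  have hbot : (⊥ : B) ∈ J := J.bot_mem
  refine ⟨⟨fun a => a ∉ J, ?_, ?_, ?_, ?_⟩, fun i => hFJ' i⟩
  · intro h
    exact hFJ' 0 (J.lower le_top h)
  · intro h
    exact h hbot
  · intro a b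
    constructor
    · intro h
      exact ⟨fun ha => h (J.lower inf_le_left ha), fun hb => h (J.lower inf_le_right hb)⟩
    · rintro ⟨ha, hb⟩ h
      rcases hJ.mem_or_mem h with h | h
      · exact ha h
      · exact hb h
  · intro a
    constructor
    · intro h h2
      rcases hJ.mem_or_mem (x := a) (y := aᶜ) (by rw [inf_compl_self]; exact hbot) with h3 | h3
      · exact h2 h3
      · exact h h3
    · intro h h2
      have h3 : a ∈ J := not_not.1 h
      have h4 : a ⊔ aᶜ ∈ J := J.sup_mem h3 h2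
      rw [sup_compl_eq_top] at h4
      exact hFJ' 0 (J.lower le_top h4)

private theorem step (f : ℕ → B) (c : B) (hc : c ≠ ⊥) :
    ∃ d : B, d ≠ ⊥ ∧ d ≤ c ∧ (d ≤ (⨆ n, f n)ᶜ ∨ ∃ n, d ≤ f n) := by
  by_cases h : c ⊓ (⨆ n, f n) = ⊥
  · exact ⟨c, hc, le_rfl, Or.inl (le_compl_iff_disjoint_right.2 (disjoint_iff.2 h))⟩
  · rw [inf_iSup_eq] at h
    have h2 : ∃ n, c ⊓ f n ≠ ⊥ := by
      by_contra h3
      push Not at h3
      exact h (by simp [h3])
    obtain ⟨n, hn⟩ := h2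
    exact ⟨c ⊓ f n, hn, inf_le_left, Or.inr ⟨n, inf_le_right⟩⟩

/-- the Rasiowa-Sikorski lemma -/
private theorem exists_generic {b : B} (hb : b ≠ ⊥) (f : ℕ → ℕ → B) :
    ∃ U : Ult B, U b ∧ ∀ i, U (⨆ n, f i n) → ∃ n, U (f i n) := by
  choose g hg1 hg2 hg3 using fun (i : ℕ) (c : {c : B // c ≠ ⊥}) => step (f i) c.1 c.2
  let c : ℕ → {c : B // c ≠ ⊥} := fun i =>
    Nat.rec ⟨b, hb⟩ (fun i c => ⟨g i c, hg1 i c⟩) i
  have hc0 : (c 0).1 = b := rfl
  have hcs : ∀ i, (c (i + 1)).1 = g i (c i) := fun i => rfl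
  obtain ⟨U, hU⟩ := exists_ult_of_seq (fun i => (c i).1) (fun i => (c i).2)
    (fun i => by
      show (c (i + 1)).1 ≤ (c i).1
      rw [hcs]
      exact hg2 i (c i))
  refine ⟨U, by rw [← hc0]; exact hU 0, fun i hi => ?_⟩
  have h1 := hU (i + 1)
  rcases hg3 i (c i) with h | ⟨n, h⟩
  · have h2 : U (⨆ n, f i n)ᶜ := U.mono h h1
    exact ((U.compl' ).1 h2 hi).elim
  · exact ⟨n, U.mono h h1⟩

theorem freq_of_ne_bot {b : B} (hb : b ≠ ⊥) : ∃ᶠ U in genF B, U b := by
  intro hcon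
  have h1 : {U : Ult B | ¬ U b} ∈ genF B := hcon
  unfold genF at h1
  rw [Filter.mem_countableGenerate_iff] at h1
  obtain ⟨S, hS, hSc, hSub⟩ := h1
  have hex : ∃ f : ℕ → ℕ → B, ∀ s ∈ S, ∃ i,
      s = {U : Ult B | U (⨆ n, f i n) → ∃ n, U (f i n)} := by
    rcases S.eq_empty_or_nonempty with rfl | hne
    · exact ⟨fun _ _ => ⊥, fun s hs => hs.elim⟩
    · obtain ⟨g, hg⟩ := hSc.exists_eq_range hne
      have h2 : ∀ i, ∃ f : ℕ → B, g i = {U : Ult B | U (⨆ n, f n) → ∃ n, U (f n)} := fun i =>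
        hS (by rw [hg]; exact ⟨i, rfl⟩)
      choose f hf using h2
      refine ⟨f, fun s hs => ?_⟩
      rw [hg] at hs
      obtain ⟨i, rfl⟩ := hs
      exact ⟨i, hf i⟩
  obtain ⟨f, hf⟩ := hex
  obtain ⟨U, hUb, hU⟩ := exists_generic hb f
  have h3 : U ∈ ⋂₀ S := by
    intro s hs
    obtain ⟨i, rfl⟩ := hf s hs
    exact hU i
  exact hSub h3 hUb

theorem le_iff_ev {a b : B} : a ≤ b ↔ ∀ᶠ U in genF B, U a → U b := by
  constructor
  · intro h
    exact Filter.Eventually.of_forall fun U ha => U.mono h ha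
  · intro h
    by_contra hab
    have h1 : a ⊓ bᶜ ≠ ⊥ := by
      intro h2
      exact hab (sdiff_eq_bot_iff.1 (by rw [sdiff_eq]; exact h2))
    have h2 := (freq_of_ne_bot h1).and_eventually h
    obtain ⟨U, hU, hU2⟩ := h2.exists
    rw [Ult.inf', Ult.compl'] at hU
    exact hU.2 (hU2 hU.1)

theorem eq_top_iff_ev {a : B} : a = ⊤ ↔ ∀ᶠ U in genF B, U a := by
  rw [← top_le_iff, le_iff_ev]
  refine Filter.eventually_congr (Filter.Eventually.of_forall fun U => ?_)
  exact ⟨fun h => h U.top, fun h _ => h⟩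

theorem eq_iff_ev {a b : B} : a = b ↔ ∀ᶠ U in genF B, (U a ↔ U b) := by
  rw [le_antisymm_iff, le_iff_ev, le_iff_ev, ← Filter.eventually_and]
  refine Filter.eventually_congr (Filter.Eventually.of_forall fun U => ?_)
  exact ⟨fun h => ⟨h.1, h.2⟩, fun h => ⟨h.1, h.2⟩⟩

theorem ev_iSup {ι : Sort*} [Countable ι] (f : ι → B) :
    ∀ᶠ U in genF B, (U (⨆ i, f i) ↔ ∃ i, U (f i)) := by
  rcases isEmpty_or_nonempty ι with hι | hι
  · refine Filter.Eventually.of_forall fun U => ?_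
    rw [iSup_of_empty]
    exact ⟨fun h => (U.bot h).elim, fun ⟨i, _⟩ => hι.elim i⟩
  · obtain ⟨g, hg⟩ := exists_surjective_nat ι
    have h1 : ⨆ i, f i = ⨆ n, f (g n) := (hg.iSup_comp f).symm
    have h2 : {U : Ult B | U (⨆ n, f (g n)) → ∃ n, U (f (g n))} ∈ genF B := by
      unfold genF
      exact Filter.CountableGenerateSets.basic ⟨fun n => f (g n), rfl⟩
    filter_upwards [h2] with U hU
    constructor
    · intro h
      rw [h1] at h
      obtain ⟨n, hn⟩ := hU h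
      exact ⟨g n, hn⟩
    · rintro ⟨i, hi⟩
      exact U.mono (le_iSup f i) hi

theorem ev_iInf {ι : Sort*} [Countable ι] (f : ι → B) :
    ∀ᶠ U in genF B, (U (⨅ i, f i) ↔ ∀ i, U (f i)) := by
  filter_upwards [ev_iSup fun i => (f i)ᶜ] with U hU
  have h1 : ⨅ i, f i = (⨆ i, (f i)ᶜ)ᶜ := by
    rw [compl_iSup]
    simp
  rw [h1, Ult.compl', hU]
  simp

end Pool.Agent.Lib.MP_4d8715_gt.KR
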